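import Pool.Agent.T2H61.TC.Clone
import Pool.Agent.T2H61.TC.Cx
import Pool.Agent.T2H61.TC.FinNP

/-!
# Tractable problems all of whose type clones are intractable

The definitions of `Pool.Agent.R617.TC.Defs` are used: `IsBase L M`: `M` is a countable homogeneous,
finitely bounded, ordered Ramsey structure in a finite relational language; `IsReduct L Γ`: the
relations in `Γ` are first-order definable; `Pol Γ k`; `TypeClone L Γ c r k`: the `k`-ary operations
on the types of `r`-tuples over the constants `c` induced by the canonical polymorphisms of `Γ`;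
`CSP l`: the constraint satisfaction problem of the structure with the relations in the list `l`;
`Tractable Γ`; `CloneTractable T`; `TypeCloneConjecture`: the statement asked for in Q1; `PEqNP`:
`P = NP`; `HasConstant Γ`: some constant operation is a polymorphism of `Γ`;
`MinionHomToProjections T`. From `Pool.Agent.T2H61.TC.Base`: `ratStr`, the structure `(ℚ; ≤)`. From
`Pool.Agent.T2H61.TC.Cx`: `ltRel`, `neqRel`, the relations `<` and `≠` of the rationals.
-/

set_option autoImplicit false

namespace Pool.Agent.Results.MP_436c39_lc.EquivalentToPEqNP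

open FirstOrder Pool.Agent.NPC Pool.Agent.R617.TC Pool.Agent.T2H61.TC

/-- All type clones of `Γ`, for all constants `c`, are intractable, for a reduct `Γ` of the order of
the rationals: for the types of `r`-tuples, `r ≥ 2`, there is a minion homomorphism to the
projections, and there is a relation on the types of pairs which is preserved by all operations of
the type clone and whose constraint satisfaction problem is `NP`-hard. -/
def AllTypeClonesHard (Γ : Set (Rel ℚ)) : Prop :=
  ∀ (n : ℕ) (c : Fin n → ℚ),
    (∀ r : ℕ, 2 ≤ r → MinionHomToProjections (TypeClone Language.order Γ c r)) ∧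
    ∃ R : Rel (Types Language.order c 2),
      (∀ (k : ℕ), ∀ g ∈ TypeClone Language.order Γ c 2 k, Preserves g R) ∧ NPHardP (CSP [R])

theorem hard_of {Γ : Set (Rel ℚ)} (hΓ : IsReduct Language.order Γ) (hcon : ¬ HasConstant Γ) :
    AllTypeClonesHard Γ := fun _ c =>
  ⟨fun _ hr => minionHom hΓ hcon c hr, nae c, fun _ _ hg => preserves_nae hΓ hcon c hg,
    npHard_nae c⟩

theorem def_lt : (∅ : Set ℚ).Definable Language.order {v : Fin 2 → ℚ | v 0 < v 1} := by
  refine Set.empty_definable_iff.2 ⟨(Language.Relations.formula₂ (Language.orderRel.le :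
    Language.order.Relations 2) (Language.Term.var 1) (Language.Term.var 0)).not, ?_⟩
  ext v
  rw [Set.mem_ofPred_eq, Set.mem_ofPred_eq, Language.Formula.realize_not,
    Language.Formula.realize_rel₂]
  change v 0 < v 1 ↔ ¬ (v 1 ≤ v 0)
  exact not_le.symm

theorem def_neq : (∅ : Set ℚ).Definable Language.order {v : Fin 2 → ℚ | v 0 ≠ v 1} := by
  refine Set.empty_definable_iff.2 ⟨(Language.Term.equal (Language.Term.var 0)
    (Language.Term.var 1)).not, ?_⟩
  ext v
  rw [Set.mem_ofPred_eq, Set.mem_ofPred_eq, Language.Formula.realize_not,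
    Language.Formula.realize_equal]
  exact Iff.rfl

theorem reduct_lt : IsReduct Language.order {ltRel} := by
  rintro R rfl
  exact def_lt

theorem reduct_neq : IsReduct Language.order {neqRel} := by
  rintro R rfl
  exact def_neq

theorem noConst_lt : ¬ HasConstant {ltRel} := by
  rintro ⟨q, hq⟩
  have h := hq ltRel rfl (fun _ => ![0, 1]) (fun _ => by
    change (0 : ℚ) < 1
    norm_num)
  exact absurd (h : q < q) (lt_irrefl q)

theorem noConst_neq : ¬ HasConstant {neqRel} := by
  rintro ⟨q, hq⟩
  have h := hq neqRel rfl (fun _ => ![0, 1]) (fun _ => by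
    change (0 : ℚ) ≠ 1
    norm_num)
  exact (h : q ≠ q) rfl

theorem greatest_two : IsGreatest {n : ℕ | Nonempty (Language.order.Relations n)} 2 := by
  refine ⟨⟨Language.orderRel.le⟩, ?_⟩
  rintro n ⟨R⟩
  cases R
  exact le_rfl

/-- **The answer to Q1 is negative unless `P = NP`; precisely, the statement asked for is equivalent
to `P = NP`.** The rational numbers with their order are a base structure, and for EVERY reduct `Γ`
of this structure without constant polymorphism, ALL type clones of `Γ`, over any constants, are
intractable. This applies to `Γ = (ℚ; <)` and to `Γ = (ℚ; ≠)`, which have tractable constraint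
satisfaction problems. -/
theorem result :
    (TypeCloneConjecture ↔ PEqNP) ∧
    IsBase Language.order ℚ ∧
    (∀ Γ : Set (Rel ℚ), IsReduct Language.order Γ → ¬ HasConstant Γ → AllTypeClonesHard Γ) ∧
    (IsReduct Language.order {ltRel} ∧ Tractable {ltRel} ∧ AllTypeClonesHard {ltRel}) ∧
    (IsReduct Language.order {neqRel} ∧ Tractable {neqRel} ∧ AllTypeClonesHard {neqRel}) := by
  refine ⟨⟨fun h => ?_, typeClone_of⟩, isBase_rat, fun Γ hΓ hcon => hard_of hΓ hcon,
    ⟨reduct_lt, tractable_lt, hard_of reduct_lt noConst_lt⟩,
    ⟨reduct_neq, tractable_neq, hard_of reduct_neq noConst_neq⟩⟩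
  obtain ⟨n, c, hc⟩ := h Language.order ℚ isBase_rat {ltRel} reduct_lt tractable_lt 2 greatest_two
  obtain ⟨-, R, hR, hard⟩ := hard_of reduct_lt noConst_lt n c
  have h1 : InPP (CSP [R]) := hc [R] (fun R' hR' k _ g hg => by
    rw [List.mem_singleton] at hR'
    subst hR'
    exact hR k g hg)
  intro A hA
  exact InP.of_reduces (hard A hA) h1

end Pool.Agent.Results.MP_436c39_lc.EquivalentToPEqNP
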